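import Pool.Agent.Lib.MP_7d55f0_co.FRMain

set_option autoImplicit false

namespace Pool.Agent.Results.MP_7d55f0_co.FourRunRealRooted

/-- For every fence with at most four maximal runs (`a` steps of one direction, then `b` steps of
the other, then `c` steps of the first direction, then the other direction again; any number `n` of
elements, so any of the runs may be empty or cut off) the h*-polynomial of the order polytope has
only real zeros. -/
theorem result (n : ℕ) (s : ℕ → Bool) (a b c : ℕ) (e : Bool)
    (hs : ∀ i, i + 1 < n → s i = if i < a then e else if i < a + b then !e else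
      if i < a + b + c then e else !e)
    (h : Polynomial ℤ)
    (hh : PowerSeries.mk (fun m : ℕ =>
          ((Nat.card {f : Fin n → Fin (m + 1) //
              ∀ i : Fin n, ∀ hi : i.val + 1 < n,
                (s i.val = true → f i ≤ f ⟨i.val + 1, hi⟩) ∧
                (s i.val = false → f ⟨i.val + 1, hi⟩ ≤ f i)} : ℕ) : ℤ))
        * (1 - PowerSeries.X) ^ (n + 1) = (↑h : PowerSeries ℤ)) :
    (h.map (Int.castRingHom ℝ)).roots.card = h.natDegree :=
  Pool.Agent.Lib.FourRun.four_run_real_rooted n s a b c e hs h hh

end Pool.Agent.Results.MP_7d55f0_co.FourRunRealRooted
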