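import Pool.Agent.Lib.MP_7d55f0_co.NWFinal

set_option autoImplicit false

namespace Pool.Agent.Results.MP_7d55f0_co.NewtonInequalities

open Pool.Agent.Lib.FenceGlue

/-- **Newton's inequalities for the h*-polynomial of every fence.** Let `h` be the h*-polynomial
of the order polytope of a fence with `n` elements and any pattern `s`. Its coefficients are
nonnegative and have no internal zeros, and if the first `r` steps, or the last `r` steps, of the
fence have the same direction, then `h` is ultra log-concave of order `n - 1 - r`: the numbers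
`h.coeff j / (n - 1 - r).choose j` form a log-concave sequence. (`r = 0` is always allowed.) -/
theorem result : ∀ (n : ℕ) (s : ℕ → Bool) (h : Polynomial ℤ),
    PowerSeries.mk (fun m : ℕ => ((PatCount n s m : ℕ) : ℤ)) *
      (1 - PowerSeries.X) ^ (n + 1) = (↑h : PowerSeries ℤ) →
    (∀ j, 0 ≤ h.coeff j) ∧ (∀ j, j ≤ h.natDegree → 0 < h.coeff j) ∧
    ∀ (r : ℕ) (e : Bool), r + 1 ≤ n →
      ((∀ i, i < r → s i = e) ∨ (∀ i, i < r → s (n - 2 - i) = e)) →
      ∀ i : ℕ, ((i : ℤ) + 2) * ((n : ℤ) - 1 - r - i) * (h.coeff i * h.coeff (i + 2)) ≤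
        ((i : ℤ) + 1) * ((n : ℤ) - 2 - r - i) * h.coeff (i + 1) ^ 2 :=
  Pool.Agent.Lib.FenceNewton.newton_fence

end Pool.Agent.Results.MP_7d55f0_co.NewtonInequalities
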