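import Pool.Agent.Lib.MP_7d55f0_co.GLFive

set_option autoImplicit false

namespace Pool.Agent.Results.MP_7d55f0_co.SeparatedRuns

open Pool.Agent.Lib.FenceGlue

/-- **Fences with separated run lengths, any number of runs in any order.** There is a function
`T` such that the h*-polynomial of the order polytope of every fence with run lengths `α` (a list
of at least five positive numbers, not all equal to one) has only real zeros, provided every run
length `x ≥ 2` that is at least as large as four others occurs only once and is at least
`T k y` for every smaller run length `y`, where `k` is the number of runs. -/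
theorem result : ∃ T : ℕ → ℕ → ℕ, ∀ (α : List ℕ) (e : Bool), (∀ a ∈ α, 0 < a) →
    5 ≤ α.length → (∃ a ∈ α, 2 ≤ a) →
    (∀ x ∈ α, 2 ≤ x → 5 ≤ α.countP (fun y => decide (y ≤ x)) →
      α.count x = 1 ∧ ∀ y ∈ α, y < x → T α.length y ≤ x) →
    RR (α.sum + 1) (fun i => (runs e α).getD i false) := by
  obtain ⟨T, hT⟩ := separated_runs_five
  exact ⟨T, fun α e hα _ _ hc => hT α e hα hc⟩

end Pool.Agent.Results.MP_7d55f0_co.SeparatedRuns
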