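import Pool.Agent.Lib.MP_7d55f0_co.AF.MnG
import Pool.Agent.Lib.MP_7d55f0_co.ZMain

set_option autoImplicit false

namespace Pool.Agent.Results.MP_7d55f0_co.ShortRuns

open Pool.Agent.Lib.FenceGlue

/-- **Fences with short runs, in particular almost all fences.** There is a constant `K` such that
the h*-polynomial of the order polytope of every fence with `n` elements all of whose runs have
length at most `R` has only real zeros, provided `K * (R + 1) ^ 140 ≤ n` or `R ≤ 1` (zigzags).
Hence the proportion of the patterns whose h*-polynomial has a zero that is not real tends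
to `0`. -/
theorem result :
    (∃ K : ℕ, ∀ (n R : ℕ) (s : ℕ → Bool), (R ≤ 1 ∨ K * (R + 1) ^ 140 ≤ n) →
      (∀ i, i + R + 1 < n → ∃ j, j ≤ R ∧ s (i + j) ≠ s i) → RR n s) ∧
    Filter.Tendsto (fun L : ℕ => (Nat.card {s : Fin L → Bool //
      ¬ RR (L + 1) (fun i => if h : i < L then s ⟨i, h⟩ else false)} : ℝ) / 2 ^ L)
      Filter.atTop (nhds 0) := by
  refine ⟨?_, Pool.Agent.Lib.FenceAF.almost_all⟩
  obtain ⟨K, hK⟩ := Pool.Agent.Lib.FenceAF.short_pattern
  refine ⟨K, fun n R s hn hs => ?_⟩
  rcases hn with h1 | h1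
  · intro h hh
    refine Pool.Agent.Lib.Zigzag.zigzag_real_rooted n s (fun i hi => ?_) h hh
    obtain ⟨j, hj, hne⟩ := hs i (by omega)
    have hj1 : j = 1 := by
      rcases Nat.eq_zero_or_pos j with h0 | h0
      · subst h0
        exact absurd rfl hne
      · omega
    subst hj1
    exact hne
  · exact hK n R s h1 hs

end Pool.Agent.Results.MP_7d55f0_co.ShortRuns
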